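import Pool.Agent.J6H81.WE.Odd

/-!
# Project WE: the class of fields
-/

set_option autoImplicit false

universe u

namespace Pool.Agent.J6H81.WE

open Pool.Agent.H315R3.ETC Pool.Agent.TH188.ET

/-- `F` has characteristic `≠ 2`, finitely many square classes, and its quaternionic structure is of
elementary type -/
def ET (F : Type*) [Field F] : Prop :=
  (2 : F) ≠ 0 ∧ FinSq F ∧ ∃ S : QData, Elem S ∧ IsStructureOf F S

/-- The valuation ring `O` of `K` contains the field `F` (embedded by `f`), and its residue field is
the union of finite extensions of `F` of odd degree. -/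
def OddPlace (F K : Type*) [Field F] [Field K] (O : ValuationSubring K) (f : F →+* O) : Prop :=
  @OddExt F (IsLocalRing.ResidueField O) _ _ ((IsLocalRing.residue O).comp f).toAlgebra

/-- The image of a family of units under a homomorphism of fields -/
def im {F K : Type*} [Field F] [Field K] (f : F →+* K) {n : ℕ} (a : Fin n → Fˣ) : Fin n → Kˣ :=
  fun k => Units.map (f : F →* K) (a k)

/-- The class of fields generated by the fields of elementary type (with finitely many square
classes) and the fields over which all quaternion algebras are split, which is closed under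
directed unions, and contains `F` if it contains a field `K` such that `K`, or the residue field of
a valuation ring of `K` which contains `F`, is the union of finite extensions of `F` of odd degree, or
if it contains fields `K t` containing `F` such that families of elements of `F` come from common
slots over `F` if they do so over all the `K t`. -/
inductive Cls : (F : Type u) → Field F → Prop
  | elem (F : Type u) [i : Field F] : ET F → Cls F i
  | split (F : Type u) [i : Field F] : (2 : F) ≠ 0 → (∀ a b : Fˣ, NormFrom a b) → Cls F i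
  | union (F ι : Type u) [i : Field F] [Preorder ι] [IsDirected ι (· ≤ ·)] [Nonempty ι]
      (E : ι → Subfield F) : Monotone E → (∀ x, ∃ t, x ∈ E t) →
      (∀ t, Cls (E t) inferInstance) → Cls F i
  | odd (F K : Type u) [i : Field F] [j : Field K] [Algebra F K] : OddExt F K → Cls K j → Cls F i
  | place (F K : Type u) [i : Field F] [j : Field K] (O : ValuationSubring K) (f : F →+* O) :
      OddPlace F K O f → Cls K j → Cls F i
  | localGlobal (F ι : Type u) [i : Field F] (K : ι → Type u) [j : ∀ t, Field (K t)]
      (f : ∀ t, F →+* K t) : (2 : F) ≠ 0 → (∀ t, Cls (K t) (j t)) →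
      (∀ (n : ℕ) (a b : Fin n → Fˣ), (∀ t, NormSys (K t) (im (f t) a) (im (f t) b)) →
        NormSys F a b) → Cls F i

/-- common slots map to common slots -/
theorem NormSys.map {F K : Type*} [Field F] [Field K] (f : F →+* K) {n : ℕ} {a b : Fin n → Fˣ}
    (h : NormSys F a b) : NormSys K (im f a) (im f b) := by
  obtain ⟨c, hc, hb⟩ := h
  refine ⟨fun I => Units.map (f : F →* K) (c I), fun I => ?_, fun i => ?_⟩
  · obtain ⟨x, y, hxy⟩ := hc I
    refine ⟨f x, f y, ?_⟩
    unfold im
    rw [← map_prod, Units.coe_map, Units.coe_map]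
    change f ((c I : Fˣ) : F) = f x ^ 2 - f ((∏ i ∈ I, a i : Fˣ) : F) * f y ^ 2
    rw [hxy]
    simp
  · obtain ⟨s, hs⟩ := hb i
    refine ⟨Units.map (f : F →* K) s, ?_⟩
    unfold im
    rw [hs, map_mul, map_pow, map_prod]

theorem two_ne_of_hom {F K : Type*} [Field F] [Field K] (f : F →+* K) (h : (2 : K) ≠ 0) :
    (2 : F) ≠ 0 := by
  intro h0
  apply h
  have := congrArg f h0
  rwa [map_ofNat, map_zero] at this

theorem two_ne_hom {F K : Type*} [Field F] [Field K] (f : F →+* K) (h : (2 : F) ≠ 0) :
    (2 : K) ≠ 0 := by
  intro h0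
  apply h
  apply f.injective
  rwa [map_ofNat, map_zero]

/-- relations map to relations -/
theorem rel_map (hM : S_MAP.{u}) {F K : Type u} [Field F] [Field K] (f : F →+* K) {n : ℕ}
    {a b : Fin n → Fˣ} (h : ∑ k, sy (a k) (b k) = 0) : ∑ k, sy (im f a k) (im f b k) = 0 := by
  obtain ⟨g, hg⟩ := hM F K f
  have h1 := congrArg g h
  rw [map_sum, map_zero] at h1
  rw [← h1]
  exact Finset.sum_congr rfl fun k _ => (hg _ _).symm

/-- the step for places -/
theorem normSys_of_place (hN : S_NORM.{u}) (hV : S_VAL.{u}) (F K : Type u) [Field F] [Field K]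
    (O : ValuationSubring K) (f : F →+* O) (h2 : (2 : F) ≠ 0) (hp : OddPlace F K O f) {n : ℕ}
    (a b : Fin n → Fˣ)
    (h : NormSys K (im (O.subtype.comp f) a) (im (O.subtype.comp f) b)) : NormSys F a b := by
  have h2' : (2 : IsLocalRing.ResidueField O) ≠ 0 :=
    two_ne_hom ((IsLocalRing.residue O).comp f) h2
  have h3 := hV K O h2' n (fun k => Units.map (f : F →* O) (a k))
    (fun k => Units.map (f : F →* O) (b k)) h
  exact @normSys_of_oddExt hN F (IsLocalRing.ResidueField O) _ _
    ((IsLocalRing.residue O).comp f).toAlgebra hp n a b h3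

/-- all fields of the class have the relation property -/
theorem relations_of_cls (hM : S_MAP.{u}) (hN : S_NORM.{u}) (hU : S_UNI.{u}) (hV : S_VAL.{u})
    (hE : ∀ (F : Type u) [Field F], ET F → RelationsFromSlots F) (F : Type u) (i : Field F)
    (h : Cls F i) : (2 : F) ≠ 0 ∧ RelationsFromSlots F := by
  induction h with
  | elem F h => exact ⟨h.1, hE F h⟩
  | split F h2 h =>
    refine ⟨h2, fun n a b _ => ⟨fun I => if h : ∃ i, I = {i} then b h.choose else 1,
      fun I => ?_, fun i => ⟨1, ?_⟩⟩⟩
    · exact h _ _
    · classical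
      rw [one_pow, one_mul, Finset.prod_eq_single ({i} : Finset (Fin n))]
      · have h1 : ∃ j, ({i} : Finset (Fin n)) = {j} := ⟨i, rfl⟩
        rw [dif_pos h1]
        have h3 := h1.choose_spec
        rw [Finset.singleton_inj] at h3
        rw [← h3]
      · intro I hI hne
        rw [Finset.mem_filter] at hI
        rw [dif_neg]
        rintro ⟨j, rfl⟩
        rw [Finset.mem_singleton] at hI
        exact hne (by rw [hI.2])
      · intro h1
        refine absurd ?_ h1
        rw [Finset.mem_filter]
        exact ⟨Finset.mem_univ _, Finset.mem_singleton_self i⟩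
  | union F ι E hmono hcov _ ih =>
    obtain ⟨t₀⟩ := ‹Nonempty ι›
    refine ⟨two_ne_hom ((E t₀).subtype) (ih t₀).1, fun n a b hab => ?_⟩
    have : Nonempty ι := ⟨t₀⟩
    obtain ⟨t, a', b', ha, hb, hab'⟩ := hU F ι E hmono hcov n a b hab
    have h1 := (((relations_iff (E t)).1 (ih t).2) n a' b' hab').map ((E t).subtype)
    have ha' : im ((E t).subtype) a' = a := funext ha
    have hb' : im ((E t).subtype) b' = b := funext hb
    rw [ha', hb'] at h1
    exact h1
  | odd F K ho _ ih =>
    refine ⟨two_ne_of_hom (algebraMap F K) ih.1, fun n a b hab => ?_⟩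
    exact normSys_of_oddExt hN F K ho a b (ih.2 n _ _ (rel_map hM (algebraMap F K) hab))
  | place F K O f hp _ ih =>
    have h2 : (2 : F) ≠ 0 := two_ne_of_hom (O.subtype.comp f) ih.1
    refine ⟨h2, fun n a b hab => ?_⟩
    exact normSys_of_place hN hV F K O f h2 hp a b (ih.2 n _ _ (rel_map hM (O.subtype.comp f) hab))
  | localGlobal F ι K f h2 _ hlg ih =>
    exact ⟨h2, fun n a b hab => hlg n a b fun t => (ih t).2 n _ _ (rel_map hM (f t) hab)⟩

/-- finitely many square classes descend along odd places -/
theorem finSq_of_place {F K : Type u} [Field F] [Field K] (O : ValuationSubring K) (f : F →+* O)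
    (hp : OddPlace F K O f) (hK : FinSq K) : FinSq F := by
  refine finSq_of_inj (O.subtype.comp f) hK fun a t ht => ?_
  have h1 : ((t : K)) ^ 2 = (f (a : F) : K) := (congrArg Units.val ht).symm
  have ha : ((f (a : F) : O) : K) ∈ O := (f (a : F)).2
  have htO : (t : K) ∈ O := by
    rcases O.mem_or_inv_mem (t : K) with h | h
    · exact h
    · have h3 := O.mul_mem _ _ ha h
      rw [← h1, pow_two, mul_assoc, mul_inv_cancel₀ t.ne_zero, mul_one] at h3
      exact h3
  let tO : O := ⟨t, htO⟩
  have h4 : tO ^ 2 = f (a : F) := Subtype.ext h1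
  have h5 : (IsLocalRing.residue O tO) ^ 2 = IsLocalRing.residue O (f (a : F)) := by
    rw [← map_pow, h4]
  have h6 : IsLocalRing.residue O (f (a : F)) ≠ 0 := by
    have h7 : ((IsLocalRing.residue O).comp f) (a : F) ≠ 0 :=
      (map_ne_zero ((IsLocalRing.residue O).comp f)).2 a.ne_zero
    exact h7
  have h8 : IsLocalRing.residue O tO ≠ 0 := by
    intro h0
    rw [h0, zero_pow (by norm_num)] at h5
    exact h6 h5.symm
  refine @sq_of_oddExt F (IsLocalRing.ResidueField O) _ _
    ((IsLocalRing.residue O).comp f).toAlgebra hp a (Units.mk0 _ h8) ?_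
  ext
  exact h5.symm

end Pool.Agent.J6H81.WE
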