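import Pool.Agent.J6H81.WE.Cls

/-!
# Project WE: finite extensions of odd degree, fixed fields
-/

set_option autoImplicit false

universe u

namespace Pool.Agent.J6H81.WE

open Pool.Agent.H315R3.ETC Pool.Agent.TH188.ET

theorem oddExt_of_finite {F K : Type*} [Field F] [Field K] [Algebra F K] [FiniteDimensional F K]
    (h : Odd (Module.finrank F K)) : OddExt F K := by
  intro T
  refine ⟨⊤, fun x _ => IntermediateField.mem_top, inferInstance, ?_⟩
  rwa [IntermediateField.finrank_top']

/-- the field `K` is the union of finite extensions of odd degree of the fixed field of a group of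
odd order -/
theorem oddExt_fixed {K G : Type*} [Field K] [Group G] [Finite G] [MulSemiringAction G K]
    [FaithfulSMul G K] (hG : Odd (Nat.card G)) : OddExt (FixedPoints.subfield G K) K := by
  have := Fintype.ofFinite G
  refine oddExt_of_finite ?_
  rw [FixedPoints.finrank_eq_card, ← Nat.card_eq_fintype_card]
  exact hG

end Pool.Agent.J6H81.WE
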