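import Pool.Agent.J6H81.WE.Cls

/-!
# Project WE: reduction to towers of quadratic extensions of finitely generated fields
-/

set_option autoImplicit false

universe u

namespace Pool.Agent.J6H81.WE

open Pool.Agent.H315R3.ETC Pool.Agent.TH188.ET

/-- `F` has a finite subset `s` such that every subfield of `F` which contains `s` and contains all
`x ∈ F` with `x ^ 2 ∈ E` is equal to `F`; that is, `F` is obtained from a finitely generated field by
successively adjoining square roots -/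
def QuadGen (F : Type*) [Field F] : Prop :=
  ∃ s : Finset F, ∀ E : Subfield F, (∀ x ∈ s, x ∈ E) → (∀ x : F, x ^ 2 ∈ E → x ∈ E) → E = ⊤

variable {F : Type u} [Field F]

/-- the closure of `s` under square roots -/
def sqc (s : Finset F) : Subfield F :=
  sInf {E | (∀ x ∈ s, x ∈ E) ∧ ∀ x : F, x ^ 2 ∈ E → x ∈ E}

theorem mem_sqc {s : Finset F} {x : F} :
    x ∈ sqc s ↔ ∀ E : Subfield F, (∀ x ∈ s, x ∈ E) → (∀ x : F, x ^ 2 ∈ E → x ∈ E) → x ∈ E := by
  unfold sqc
  rw [Subfield.mem_sInf]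
  exact ⟨fun h E h1 h2 => h E ⟨h1, h2⟩, fun h E hE => h E hE.1 hE.2⟩

theorem sqc_closed {s : Finset F} {x : F} (h : x ^ 2 ∈ sqc s) : x ∈ sqc s := by
  rw [mem_sqc] at h ⊢
  exact fun E h1 h2 => h2 x (h E h1 h2)

theorem subset_sqc {s : Finset F} {x : F} (h : x ∈ s) : x ∈ sqc s :=
  mem_sqc.2 fun _ h1 _ => h1 x h

theorem sqc_mono : Monotone (sqc : Finset F → Subfield F) := by
  intro s t hst x hx
  rw [mem_sqc] at hx ⊢
  exact fun E h1 h2 => hx E (fun y hy => h1 y (hst hy)) h2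

theorem finSq_sqc (s : Finset F) (h : FinSq F) : FinSq (sqc s) := by
  refine finSq_of_inj (sqc s).subtype h fun a t ht => ?_
  have h1 : ((t : F)) ^ 2 = ((a : sqc s) : F) := (congrArg Units.val ht).symm
  have h2 : (t : F) ∈ sqc s := sqc_closed (by rw [h1]; exact (a : sqc s).2)
  refine ⟨Units.mk0 ⟨t, h2⟩ (fun h0 => t.ne_zero (congrArg Subtype.val h0)), ?_⟩
  ext
  exact h1.symm

theorem quadGen_sqc (s : Finset F) : QuadGen (sqc s) := by
  classical
  refine ⟨s.attach.image (fun x => ⟨x.1, subset_sqc x.2⟩), fun E h1 h2 => ?_⟩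
  rw [eq_top_iff]
  rintro ⟨x, hx⟩ -
  have h3 := mem_sqc.1 hx (E.map (sqc s).subtype) (fun y hy => ?_) (fun y hy => ?_)
  · obtain ⟨z, hz, hzx⟩ := Subfield.mem_map.1 h3
    have : z = ⟨x, hx⟩ := Subtype.ext hzx
    rwa [← this]
  · exact Subfield.mem_map.2 ⟨⟨y, subset_sqc hy⟩, h1 _ (Finset.mem_image.2
      ⟨⟨y, hy⟩, Finset.mem_attach _ _, rfl⟩), rfl⟩
  · obtain ⟨z, hz, hzy⟩ := Subfield.mem_map.1 hy
    have hzy' : (z : F) = y ^ 2 := hzy
    have h4 : y ∈ sqc s := sqc_closed (by rw [← hzy']; exact z.2)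
    refine Subfield.mem_map.2 ⟨⟨y, h4⟩, h2 _ ?_, rfl⟩
    have : (⟨y, h4⟩ : sqc s) ^ 2 = z := Subtype.ext hzy'.symm
    rw [this]
    exact hz

/-- the reduction -/
theorem cls_of_quadGen
    (h : ∀ (F : Type u) [Field F], (2 : F) ≠ 0 → FinSq F → QuadGen F → ET F)
    (F : Type u) [Field F] (h2 : (2 : F) ≠ 0) (hfin : FinSq F) : Cls F inferInstance := by
  refine Cls.union F (Finset F) (fun s => sqc s) sqc_mono
    (fun x => ⟨{x}, subset_sqc (Finset.mem_singleton_self x)⟩) fun s => Cls.elem _ ?_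
  exact h (sqc s) (two_ne_of_hom (sqc s).subtype h2) (finSq_sqc s hfin) (quadGen_sqc s)

end Pool.Agent.J6H81.WE
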