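import Pool.Agent.J6H81.WE.Stm

set_option autoImplicit false

universe u

namespace Pool.Agent.J6H81.WE

open Pool.Agent.TH188.ET
open scoped TensorProduct

theorem s_map : S_MAP.{u} := by
  intro F K _ _ f
  let φ : Additive Fˣ →ₗ[ℤ] Additive Kˣ :=
    (MonoidHom.toAdditive (Units.map (f : F →* K))).toIntLinearMap
  let g : Additive Fˣ ⊗[ℤ] Additive Fˣ →+ Additive Kˣ ⊗[ℤ] Additive Kˣ :=
    (TensorProduct.map φ φ).toAddMonoidHom
  have hle : steinberg F ≤ (steinberg K).comap g := by
    unfold steinberg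
    rw [AddSubgroup.closure_le]
    rintro t (⟨a, b, hab, rfl⟩ | ⟨s, rfl⟩)
    · refine AddSubgroup.subset_closure (Or.inl ⟨Units.map (f : F →* K) a,
        Units.map (f : F →* K) b, ?_, rfl⟩)
      rw [Units.coe_map, Units.coe_map]
      change f (a : F) + f (b : F) = 1
      rw [← map_add, hab, map_one]
    · exact AddSubgroup.subset_closure (Or.inr ⟨g s, map_add g s s⟩)
  exact ⟨QuotientAddGroup.map _ _ g hle, fun a b => rfl⟩

end Pool.Agent.J6H81.WE
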