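import Pool.Agent.J6H81.WE.Stm

/-!
# WE-NORM: the norm of a norm (helper74)
-/

set_option autoImplicit false

universe u

namespace Pool.Agent.J6H81.WE

namespace NormAux

variable {F : Type u} [Field F] (a : F)

/-- the conjugation of `F[ω]`, `ω² = a` -/
def conj : QuadraticAlgebra F a 0 →+* QuadraticAlgebra F a 0 where
  toFun z := ⟨z.re, -z.im⟩
  map_one' := by ext <;> simp [QuadraticAlgebra.re_one, QuadraticAlgebra.im_one]
  map_zero' := by ext <;> simp
  map_add' z w := by
    ext
    · simp
    · simp only [QuadraticAlgebra.im_add]; ring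
  map_mul' z w := by
    ext
    · simp only [QuadraticAlgebra.re_mul]; ring
    · simp only [QuadraticAlgebra.im_mul]; ring

theorem det_eq {ι : Type} [Fintype ι] [DecidableEq ι] (L M : Matrix ι ι F) (hLM : L * M = M * L) :
    ∃ X Y : F, (L ^ 2 - a • M ^ 2).det = X ^ 2 - a * Y ^ 2 := by
  let Q := QuadraticAlgebra F a 0
  let f : F →+* Q := algebraMap F Q
  let w : Q := ⟨0, 1⟩
  let L' : Matrix ι ι Q := f.mapMatrix L
  let M' : Matrix ι ι Q := f.mapMatrix M
  have hw : w * w = f a := by
    ext
    · rw [QuadraticAlgebra.re_mul, QuadraticAlgebra.algebraMap_re]; simp [w]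
    · rw [QuadraticAlgebra.im_mul, QuadraticAlgebra.algebraMap_im]; simp [w]
  have hconjf : ∀ x : F, conj a (f x) = f x := by
    intro x
    ext
    · rfl
    · change -(0 : F) = 0
      exact neg_zero
  have hconjw : conj a w = -w := by
    ext
    · change (0 : F) = -(0 : F)
      exact neg_zero.symm
    · rfl
  have hLM' : L' * M' = M' * L' := by
    change f.mapMatrix L * f.mapMatrix M = f.mapMatrix M * f.mapMatrix L
    rw [← map_mul, ← map_mul, hLM]
  let D : Q := (L' + w • M').det
  have hconjD : conj a D = (L' - w • M').det := by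
    change conj a (L' + w • M').det = _
    rw [RingHom.map_det]
    congr 1
    ext i j : 1
    change conj a (f (L i j) + w * f (M i j)) = f (L i j) - w * f (M i j)
    rw [map_add, map_mul, hconjf, hconjf, hconjw]
    ring
  have hprod : D * conj a D = f ((L ^ 2 - a • M ^ 2).det) := by
    rw [hconjD]
    change (L' + w • M').det * _ = _
    rw [← Matrix.det_mul, RingHom.map_det]
    congr 1
    have h1 : (L' + w • M') * (L' - w • M') = L' * L' - (w * w) • (M' * M') := by
      rw [add_mul, mul_sub, mul_sub, smul_mul_assoc, smul_mul_assoc, mul_smul_comm, mul_smul_comm,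
        hLM', smul_smul]
      abel
    rw [h1, hw, map_sub, map_pow, sq]
    congr 1
    ext i j : 1
    change f a * (M' * M') i j = f (a * (M ^ 2) i j)
    rw [map_mul]
    congr 1
    change (f.mapMatrix M * f.mapMatrix M) i j = (f.mapMatrix (M ^ 2)) i j
    rw [map_pow, sq]
  refine ⟨D.re, D.im, ?_⟩
  have h2 := congrArg QuadraticAlgebra.re hprod
  rw [QuadraticAlgebra.algebraMap_re, QuadraticAlgebra.re_mul] at h2
  change D.re * D.re + a * D.im * (-D.im) = _ at h2
  rw [← h2]
  ring

end NormAux

theorem s_norm : S_NORM.{u} := by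
  intro F K _ _ _ _ a x y
  let b := Module.finBasis F K
  obtain ⟨X, Y, h⟩ := NormAux.det_eq a (Algebra.leftMulMatrix b x) (Algebra.leftMulMatrix b y)
    (by rw [← map_mul, ← map_mul, mul_comm])
  refine ⟨X, Y, ?_⟩
  rw [← h, Algebra.norm_eq_matrix_det b, map_sub, map_mul, map_pow, map_pow,
    AlgHom.commutes, Algebra.smul_def]

end Pool.Agent.J6H81.WE
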