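import Pool.Agent.J6H81.WE.Stm

/-!
# Project WE: descent along extensions of odd degree
-/

set_option autoImplicit false

universe u

namespace Pool.Agent.J6H81.WE

open Pool.Agent.TH188.ET

/-- `K` is the union of finite extensions of `F` of odd degree: every finite subset of `K` lies in
an intermediate field which is a finite extension of `F` of odd degree. -/
def OddExt (F K : Type*) [Field F] [Field K] [Algebra F K] : Prop :=
  ∀ T : Finset K, ∃ E : IntermediateField F K, (∀ x ∈ T, x ∈ E) ∧ FiniteDimensional F E ∧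
    Odd (Module.finrank F E)

/-- descent along a finite extension of odd degree -/
theorem normSys_of_odd (hN : S_NORM.{u}) (F K : Type u) [Field F] [Field K] [Algebra F K]
    [FiniteDimensional F K] (hodd : Odd (Module.finrank F K)) {n : ℕ} (a b : Fin n → Fˣ)
    (h : NormSys K (fun k => Units.map (algebraMap F K : F →* K) (a k))
      (fun k => Units.map (algebraMap F K : F →* K) (b k))) : NormSys F a b := by
  obtain ⟨c, hc, hb⟩ := h
  refine ⟨fun I => Units.map (Algebra.norm F : K →* F) (c I), fun I => ?_, fun i => ?_⟩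
  · obtain ⟨x, y, hxy⟩ := hc I
    obtain ⟨X, Y, hXY⟩ := hN F K ((∏ i ∈ I, a i : Fˣ) : F) x y
    refine ⟨X, Y, ?_⟩
    rw [← hXY, Units.coe_map]
    change Algebra.norm F ((c I : Kˣ) : K) = _
    rw [hxy, ← map_prod, Units.coe_map]
    rfl
  · obtain ⟨s, hs⟩ := hb i
    obtain ⟨m, hm⟩ := hodd
    have h1 : Units.map (Algebra.norm F : K →* F) (Units.map (algebraMap F K : F →* K) (b i)) =
        b i ^ (2 * m + 1) := by
      ext
      rw [Units.coe_map, Units.coe_map, Units.val_pow_eq_pow_val]
      change Algebra.norm F (algebraMap F K (b i : F)) = _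
      rw [Algebra.norm_algebraMap, hm]
    have h2 := congrArg (Units.map (Algebra.norm F : K →* F)) hs
    rw [h1, map_mul, map_pow, map_prod] at h2
    refine ⟨Units.map (Algebra.norm F : K →* F) s * (b i ^ m)⁻¹, ?_⟩
    rw [mul_pow, mul_right_comm, ← h2, inv_pow, ← pow_mul, mul_comm m 2, pow_succ]
    rw [mul_comm (b i ^ (2 * m)) (b i), mul_inv_cancel_right]

/-- descent along a union of finite extensions of odd degree -/
theorem normSys_of_oddExt (hN : S_NORM.{u}) (F K : Type u) [Field F] [Field K] [Algebra F K]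
    (hodd : OddExt F K) {n : ℕ} (a b : Fin n → Fˣ)
    (h : NormSys K (fun k => Units.map (algebraMap F K : F →* K) (a k))
      (fun k => Units.map (algebraMap F K : F →* K) (b k))) : NormSys F a b := by
  classical
  obtain ⟨c, hc, hb⟩ := h
  choose x y hxy using hc
  choose s hs using hb
  obtain ⟨E, hE, hfin, hod⟩ := hodd ((Finset.univ.image x ∪ Finset.univ.image y) ∪
    Finset.univ.image (fun i => ((s i : Kˣ) : K)))
  have hx : ∀ I, x I ∈ E := fun I => hE _ (Finset.mem_union_left _
    (Finset.mem_union_left _ (Finset.mem_image_of_mem _ (Finset.mem_univ I))))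
  have hy : ∀ I, y I ∈ E := fun I => hE _ (Finset.mem_union_left _
    (Finset.mem_union_right _ (Finset.mem_image_of_mem _ (Finset.mem_univ I))))
  have hsE : ∀ i, ((s i : Kˣ) : K) ∈ E := fun i => hE _ (Finset.mem_union_right _
    (Finset.mem_image_of_mem _ (Finset.mem_univ i)))
  have hA : ∀ I : Finset (Fin n), ((∏ i ∈ I, Units.map (algebraMap F K : F →* K) (a i) : Kˣ) : K)
      = algebraMap F K ((∏ i ∈ I, a i : Fˣ) : F) := by
    intro I
    rw [← map_prod, Units.coe_map]
    rfl
  have hcE : ∀ I, ((c I : Kˣ) : K) ∈ E := by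
    intro I
    rw [hxy I, hA]
    exact E.sub_mem (pow_mem (hx I) 2) (E.mul_mem (E.algebraMap_mem _) (pow_mem (hy I) 2))
  let cE : Finset (Fin n) → Eˣ := fun I => Units.mk0 ⟨(c I : K), hcE I⟩ (by
    intro h0
    exact (c I).ne_zero (congrArg Subtype.val h0))
  let sE : Fin n → Eˣ := fun i => Units.mk0 ⟨(s i : K), hsE i⟩ (by
    intro h0
    exact (s i).ne_zero (congrArg Subtype.val h0))
  have hinj : Function.Injective (Units.map ((algebraMap E K : E →+* K) : E →* K)) := by
    intro u v huv
    ext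
    exact congrArg Units.val huv
  have hcm : ∀ I, Units.map ((algebraMap E K : E →+* K) : E →* K) (cE I) = c I := by
    intro I
    ext
    rfl
  have hsm : ∀ i, Units.map ((algebraMap E K : E →+* K) : E →* K) (sE i) = s i := by
    intro i
    ext
    rfl
  have hmm : ∀ t : Fˣ, Units.map ((algebraMap E K : E →+* K) : E →* K)
      (Units.map (algebraMap F E : F →* E) t) = Units.map (algebraMap F K : F →* K) t := by
    intro t
    ext
    rfl
  refine normSys_of_odd hN F E hod a b ⟨cE, fun I => ?_, fun i => ⟨sE i, ?_⟩⟩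
  · refine ⟨⟨x I, hx I⟩, ⟨y I, hy I⟩, ?_⟩
    apply Subtype.ext
    have h1 := hxy I
    rw [hA] at h1
    have h2 : ((∏ i ∈ I, Units.map (algebraMap F E : F →* E) (a i) : Eˣ) : E)
        = algebraMap F E ((∏ i ∈ I, a i : Fˣ) : F) := by
      rw [← map_prod, Units.coe_map]
      rfl
    rw [h2]
    exact h1
  · apply hinj
    rw [map_mul, map_pow, map_prod, hsm, hmm]
    refine (hs i).trans ?_
    congr 1
    refine Finset.prod_congr rfl fun I _ => ?_
    rw [hcm]

/-- squares descend along extensions of odd degree -/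
theorem sq_of_oddExt {F K : Type*} [Field F] [Field K] [Algebra F K]
    (hodd : OddExt F K) (a : Fˣ) (t : Kˣ) (h : Units.map (algebraMap F K : F →* K) a = t ^ 2) :
    ∃ s : Fˣ, a = s ^ 2 := by
  classical
  obtain ⟨E, hE, hfin, hod⟩ := hodd {(t : K)}
  have ht : (t : K) ∈ E := hE _ (Finset.mem_singleton_self _)
  have h1 : algebraMap F E (a : F) = (⟨t, ht⟩ : E) ^ 2 := by
    apply Subtype.ext
    have := congrArg Units.val h
    exact this
  have h2 := congrArg (Algebra.norm F) h1
  obtain ⟨m, hm⟩ := hod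
  rw [Algebra.norm_algebraMap, map_pow, hm] at h2
  have h3 : Algebra.norm F (⟨t, ht⟩ : E) ≠ 0 := by
    intro h0
    rw [h0, zero_pow (by norm_num)] at h2
    exact a.ne_zero (pow_eq_zero_iff (by omega) |>.1 h2)
  refine ⟨Units.mk0 _ h3 * (a ^ m)⁻¹, ?_⟩
  ext
  rw [Units.val_pow_eq_pow_val, Units.val_mul, Units.val_mk0, mul_pow, ← h2,
    Units.val_inv_eq_inv_val, Units.val_pow_eq_pow_val, inv_pow, ← pow_mul, mul_comm m 2,
    pow_succ, mul_comm ((a : F) ^ (2 * m)) (a : F)]
  rw [mul_inv_cancel_right₀ (pow_ne_zero _ a.ne_zero)]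

/-- a field has finitely many square classes if it embeds in one with finitely many square classes
such that squares descend -/
theorem finSq_of_inj {F K : Type*} [Field F] [Field K] (f : F →+* K) (hK : FinSq K)
    (h : ∀ (a : Fˣ) (t : Kˣ), Units.map (f : F →* K) a = t ^ 2 → ∃ s : Fˣ, a = s ^ 2) :
    FinSq F := by
  unfold FinSq at hK ⊢
  let g : Fˣ ⧸ (powMonoidHom 2 : Fˣ →* Fˣ).range →* Kˣ ⧸ (powMonoidHom 2 : Kˣ →* Kˣ).range :=
    QuotientGroup.map _ _ (Units.map (f : F →* K)) (by
      rintro _ ⟨s, rfl⟩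
      refine ⟨Units.map (f : F →* K) s, ?_⟩
      simp)
  refine Finite.of_injective g ?_
  rw [injective_iff_map_eq_one]
  intro z hz
  obtain ⟨a, rfl⟩ := QuotientGroup.mk_surjective z
  have h1 : (QuotientGroup.mk (Units.map (f : F →* K) a) :
      Kˣ ⧸ (powMonoidHom 2 : Kˣ →* Kˣ).range) = 1 := hz
  rw [QuotientGroup.eq_one_iff] at h1 ⊢
  obtain ⟨t, ht⟩ := h1
  obtain ⟨s, hs⟩ := h a t ht.symm
  exact ⟨s, hs.symm⟩

end Pool.Agent.J6H81.WE
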