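import Pool.Agent.TH188.ET.K2

/-!
# Project WE (MP_2429c0_al): descent of the elementary type property

Start library (`Pool.Agent.TH188.ET`): a field `F` of characteristic `≠ 2` with finitely many square
classes is of elementary type if and only if `RelationsFromSlots F`: every relation
`∑ {a_i, b_i} = 0` in `K_2(F)/2` comes from common slots, `NormSys F a b` below. This has no finiteness
condition, and it passes from `K` to `F` in three situations (modules below).
-/

set_option autoImplicit false

universe u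

namespace Pool.Agent.J6H81.WE

open Pool.Agent.TH188.ET

/-- `b` comes from common slots of `a`: `b_i` is, up to a square, the product over the sets `I`
containing `i` of values `c_I` of the norm form of `F(√(∏_{i ∈ I} a_i))` -/
def NormSys (F : Type*) [Field F] {n : ℕ} (a b : Fin n → Fˣ) : Prop :=
  ∃ c : Finset (Fin n) → Fˣ, (∀ I, NormFrom (∏ i ∈ I, a i) (c I)) ∧
    ∀ i, ∃ s : Fˣ, b i = s ^ 2 * ∏ I with i ∈ I, c I

theorem relations_iff (F : Type*) [Field F] :
    RelationsFromSlots F ↔ ∀ (n : ℕ) (a b : Fin n → Fˣ), ∑ i, sy (a i) (b i) = 0 → NormSys F a b :=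
  Iff.rfl

/-- **WE-MAP** (40 lines). Functoriality of `K_2(F)/2`. PROOF. The two maps
`Additive (Units.map f)` give `g : F* ⊗ F* →+ K* ⊗ K*` (`TensorProduct.map` of the `ℤ`-linear maps), it maps the
generators of `steinberg F` to elements of `steinberg K`; `QuotientAddGroup.map`. -/
def S_MAP : Prop := ∀ (F K : Type u) [Field F] [Field K] (f : F →+* K),
  ∃ g : K2 F →+ K2 K, ∀ a b : Fˣ, g (sy a b) = sy (Units.map (f : F →* K) a) (Units.map (f : F →* K) b)

/-- **WE-NORM** (60 lines). The norm of a norm. If `c = x² - a y²` with `x, y ∈ K`, `a ∈ F`, then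
`N_{K/F}(c) = X² - a Y²` with `X, Y ∈ F`. PROOF. Let `L`, `M` be the (commuting) matrices of the
multiplications with `x`, `y` in a basis (`Algebra.leftMulMatrix`), over the ring `Q = F[ω]`, `ω² = a`
(`QuadraticAlgebra F a 0` or `AdjoinRoot (X^2 - C a)`, with the conjugation `σ : Q →+* Q`, `ω ↦ -ω`, or pairs
with an ad hoc multiplication): `D = det (L + ω M) = X + ω Y`, `σ D = det (L - ω M)`,
`D (σ D) = det (L² - a M²) = N(x² - a y²)` and `D (σ D) = X² - a Y²`. (`RingHom.map_det`.) -/
def S_NORM : Prop := ∀ (F K : Type u) [Field F] [Field K] [Algebra F K] [FiniteDimensional F K]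
  (a : F) (x y : K), ∃ X Y : F,
    Algebra.norm F (x ^ 2 - algebraMap F K a * y ^ 2) = X ^ 2 - a * Y ^ 2

/-- **WE-UNI** (100 lines). Relations in `K_2/2` pass to the members of a directed union. PROOF. Let
`l = atTop` on `ι`; every `x : F` is in `E i` for all large `i`. Let `u i x : (E i)ˣ` be `x` if `x ∈ E i` and
`1` otherwise. Suppose the conclusion fails. For each `i` with all `a k, b k` in `E i` the element
`t_i = ∑ k, sy (u i (a k)) (u i (b k))` of `K2 (E i)` is not zero, so by `exists_char` (with `M = ⊥` and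
`K2_add_self`) there is `χ i : K2 (E i) →+ ZMod 2` with `χ i t_i = 1`; `χ i = 0` for the other `i`. Put
`B x y = ((fun i => χ i (sy (u i x) (u i y)) : ι → ZMod 2) : Germ l (ZMod 2))`. It is biadditive (for `i`
large `u i (x * y) = u i x * u i y`) and zero if `NormFrom x y` (the witnesses are in `E i` for `i` large; `sy_of_norm`).
As in `Pool.Agent.TH188.ET.exists_hom` (same proof, with the group `Germ l (ZMod 2)`, in which `z + z = 0`, in
place of `ZMod 2`) there is `f : K2 F →+ Germ l (ZMod 2)` with `f (sy x y) = B x y`. So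
`0 = f (∑ k, sy (a k) (b k)) = ∑ k, B (a k) (b k)` is the germ of a function which is `1` for all large `i`;
contradiction, as `l ≠ ⊥`. -/
def S_UNI : Prop := ∀ (F ι : Type u) [Field F] [Preorder ι] [IsDirected ι (· ≤ ·)] [Nonempty ι]
  (E : ι → Subfield F), Monotone E → (∀ x, ∃ i, x ∈ E i) →
  ∀ (n : ℕ) (a b : Fin n → Fˣ), ∑ k, sy (a k) (b k) = 0 →
    ∃ (i : ι) (a' b' : Fin n → (E i)ˣ), (∀ k, Units.map ((E i).subtype : E i →* F) (a' k) = a k) ∧
      (∀ k, Units.map ((E i).subtype : E i →* F) (b' k) = b k) ∧ ∑ k, sy (a' k) (b' k) = 0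

/-- **WE-VAL** (120 lines). Reduction modulo the maximal ideal of a valuation ring. PROOF. (1) Let
`V = Additive (Kˣ ⧸ squares)`, `W = Additive (κˣ ⧸ squares)` (`squares = (powMonoidHom 2).range`; `κ` the residue
field), modules over `ZMod 2` (`AddCommGroup.zmodModule`). There is a group homomorphism `l : Kˣ →* κˣ ⧸ squares`
with `l u = [residue u]` for the units `u` of `O`: use `exists_lin` (start file `Pool/Agent/TH188/ET/Conv.lean`) for
`X = Additive Oˣ ⧸ 2` or `X = Additive (Oˣ ⧸ squares)`, `T : X → V`, `f : X → W`: if a unit `u` of `O` is a square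
`s ^ 2` in `K`, then `s` is a unit of `O` and the residue of `u` is a square. (2) Let `c` be the solution over
`K` and `c' I : κˣ` a representative of `l (c I)`. The equations for `b i` follow by applying `l`. `NormFrom` for
`c' I`: let `A = ∏_{i ∈ I} a i : Oˣ`. If the residue `r` of `A` is a square, every element of `κˣ` is a value of
`x² - r y²` (`2 ≠ 0`). Otherwise `c I = x² - A y²`; if `x ≠ 0`, `z = y / x ∈ O` then `c I = x² (1 - A z²)` and
`1 - r z̄² ≠ 0`, so `1 - A z²` is a unit and `l (c I) = [1 - r z̄²]`; otherwise `z = x / y ∈ O`,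
`c I = y² (z² - A)`, `z̄² - r ≠ 0`. -/
def S_VAL : Prop := ∀ (K : Type u) [Field K] (O : ValuationSubring K),
  (2 : IsLocalRing.ResidueField O) ≠ 0 → ∀ (n : ℕ) (a b : Fin n → Oˣ),
  NormSys K (fun k => Units.map (O.subtype : O →* K) (a k)) (fun k => Units.map (O.subtype : O →* K) (b k)) →
  NormSys (IsLocalRing.ResidueField O)
    (fun k => Units.map (IsLocalRing.residue O : O →* IsLocalRing.ResidueField O) (a k))
    (fun k => Units.map (IsLocalRing.residue O : O →* IsLocalRing.ResidueField O) (b k))

end Pool.Agent.J6H81.WE
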