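import Pool.Agent.J6H81.WE.Stm

/-!
# Project WE: relations in `K_2/2` pass to the members of a directed union (WE-UNI)
-/

set_option autoImplicit false

universe u

namespace Pool.Agent.J6H81.WE

open Pool.Agent.TH188.ET
open scoped TensorProduct
open Filter

namespace Uni

section

variable {F : Type*} [Field F]

/-- additive maps out of `K_2(F)/2` from biadditive maps killing Steinberg symbols -/
theorem exists_hom {A : Type*} [AddCommGroup A] (hA : ∀ z : A, z + z = 0) (B : Fˣ → Fˣ → A)
    (hl : ∀ a b c, B (a * b) c = B a c + B b c)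
    (hr : ∀ a b c, B a (b * c) = B a b + B a c)
    (h0 : ∀ a c, NormFrom a c → B a c = 0) :
    ∃ f : K2 F →+ A, ∀ a b, f (sy a b) = B a b := by
  let B' : Additive Fˣ →+ Additive Fˣ →+ A :=
    AddMonoidHom.mk' (fun a => AddMonoidHom.mk' (fun b => B a.toMul b.toMul)
      (fun b c => hr _ _ _)) (fun a b => by
        ext c
        exact hl _ _ _)
  let g : Additive Fˣ ⊗[ℤ] Additive Fˣ →+ A :=
    TensorProduct.liftAddHom B' (fun r m n => by
      rw [map_zsmul, AddMonoidHom.smul_apply, map_zsmul])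
  have hg : ∀ a b : Fˣ, g (Additive.ofMul a ⊗ₜ[ℤ] Additive.ofMul b) = B a b := by
    intro a b
    rfl
  have hker : steinberg F ≤ g.ker := by
    unfold steinberg
    rw [AddSubgroup.closure_le]
    rintro t (⟨a, b, hab, rfl⟩ | ⟨s, rfl⟩)
    · rw [SetLike.mem_coe, AddMonoidHom.mem_ker, hg]
      apply h0
      refine ⟨1, 1, ?_⟩
      linear_combination hab
    · rw [SetLike.mem_coe, AddMonoidHom.mem_ker, map_add]
      exact hA _
  refine ⟨QuotientAddGroup.lift _ g hker, ?_⟩
  intro a b
  exact hg a b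

open Classical in
/-- the unit `x` of the subfield `E`, or `1` if `x` is not in `E` -/
noncomputable def un (E : Subfield F) (x : Fˣ) : Eˣ :=
  if h : (x : F) ∈ E then Units.mk0 (⟨x, h⟩ : E) (fun h0 => x.ne_zero (congrArg Subtype.val h0)) else 1

theorem un_val {E : Subfield F} {x : Fˣ} (h : (x : F) ∈ E) : ((un E x : E) : F) = x := by
  unfold un
  rw [dif_pos h]
  rfl

theorem un_mul {E : Subfield F} {x y : Fˣ} (hx : (x : F) ∈ E) (hy : (y : F) ∈ E) :
    un E (x * y) = un E x * un E y := by
  apply Units.ext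
  apply Subtype.ext
  have hxy : ((x * y : Fˣ) : F) ∈ E := by
    rw [Units.val_mul]
    exact E.mul_mem hx hy
  rw [un_val hxy, Units.val_mul, Units.val_mul]
  change (x : F) * y = ((un E x : E) : F) * ((un E y : E) : F)
  rw [un_val hx, un_val hy]

theorem un_map {E : Subfield F} {x : Fˣ} (h : (x : F) ∈ E) :
    Units.map (E.subtype : E →* F) (un E x) = x := by
  apply Units.ext
  exact un_val h

theorem un_norm {E : Subfield F} {x y : Fˣ} {p q : F} (hx : (x : F) ∈ E) (hy : (y : F) ∈ E)
    (hp : p ∈ E) (hq : q ∈ E) (h : (y : F) = p ^ 2 - x * q ^ 2) : NormFrom (un E x) (un E y) := by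
  refine ⟨⟨p, hp⟩, ⟨q, hq⟩, ?_⟩
  apply Subtype.ext
  change ((un E y : E) : F) = p ^ 2 - ((un E x : E) : F) * q ^ 2
  rw [un_val hx, un_val hy]
  exact h

end

end Uni

open Uni in
/-- Relations in `K_2/2` pass to the members of a directed union. -/
theorem s_uni : S_UNI.{u} := by
  intro F ι _ _ _ _ E hE hcov n a b hab
  by_contra hcon
  have hev : ∀ x : F, ∀ᶠ i in (atTop : Filter ι), x ∈ E i := by
    intro x
    obtain ⟨i₀, hi₀⟩ := hcov x
    filter_upwards [eventually_ge_atTop i₀] with i hi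
    exact hE hi hi₀
  have hchar : ∀ i : ι, ∃ χ : K2 (E i) →+ ZMod 2, ((∀ k, (a k : F) ∈ E i ∧ (b k : F) ∈ E i) →
      χ (∑ k, sy (un (E i) (a k)) (un (E i) (b k))) = 1) := by
    intro i
    by_cases hP : ∀ k, (a k : F) ∈ E i ∧ (b k : F) ∈ E i
    · have hne : ∑ k, sy (un (E i) (a k)) (un (E i) (b k)) ∉ (⊥ : AddSubgroup (K2 (E i))) := by
        intro h
        rw [AddSubgroup.mem_bot] at h
        exact hcon ⟨i, fun k => un (E i) (a k), fun k => un (E i) (b k),
          fun k => un_map (hP k).1, fun k => un_map (hP k).2, h⟩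
      obtain ⟨f, -, hf⟩ := exists_char (⊥ : AddSubgroup (K2 (E i)))
        (fun x => by rw [K2_add_self]; exact zero_mem _) _ hne
      refine ⟨f, fun _ => ?_⟩
      have : ∀ z : ZMod 2, z ≠ 0 → z = 1 := by decide
      exact this _ hf
    · exact ⟨0, fun h => absurd h hP⟩
  choose χ hχ using hchar
  let B : Fˣ → Fˣ → Germ (atTop : Filter ι) (ZMod 2) := fun x y =>
    Germ.coeAddHom (atTop : Filter ι) (fun i => χ i (sy (un (E i) x) (un (E i) y)))
  have hBe : ∀ f g : ι → ZMod 2, (∀ᶠ i in (atTop : Filter ι), f i = g i) →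
      Germ.coeAddHom (atTop : Filter ι) f = Germ.coeAddHom (atTop : Filter ι) g := fun f g h =>
    Germ.coe_eq.2 h
  obtain ⟨f, hf⟩ := exists_hom (F := F) (A := Germ (atTop : Filter ι) (ZMod 2))
    (fun z => by
      induction z using Germ.inductionOn with
      | _ z =>
        refine Germ.coe_eq.2 (Eventually.of_forall fun i => ?_)
        exact CharTwo.add_self_eq_zero _)
    B
    (fun x y z => by
      change Germ.coeAddHom _ _ = Germ.coeAddHom _ _ + Germ.coeAddHom _ _
      rw [← map_add]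
      refine hBe _ _ ?_
      filter_upwards [hev x, hev y] with i hx hy
      rw [un_mul hx hy, sy_mul_left, map_add]
      rfl)
    (fun x y z => by
      change Germ.coeAddHom _ _ = Germ.coeAddHom _ _ + Germ.coeAddHom _ _
      rw [← map_add]
      refine hBe _ _ ?_
      filter_upwards [hev y, hev z] with i hx hy
      rw [un_mul hx hy, sy_mul_right, map_add]
      rfl)
    (fun x y hxy => by
      obtain ⟨p, q, hpq⟩ := hxy
      change Germ.coeAddHom _ _ = 0
      rw [← map_zero (Germ.coeAddHom (M := ZMod 2) (atTop : Filter ι))]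
      refine hBe _ _ ?_
      filter_upwards [hev x, hev y, hev p, hev q] with i hx hy hp hq
      rw [sy_of_norm _ _ (un_norm hx hy hp hq hpq), map_zero]
      rfl)
  have h1 : ∑ k, B (a k) (b k) = 0 := by
    have h2 := congrArg f hab
    rw [map_sum, map_zero] at h2
    rw [← h2]
    exact Finset.sum_congr rfl fun k _ => (hf _ _).symm
  have h3 : ∑ k, B (a k) (b k) = Germ.coeAddHom (atTop : Filter ι) (fun _ => (1 : ZMod 2)) := by
    change ∑ k, Germ.coeAddHom (atTop : Filter ι) _ = _
    rw [← map_sum]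
    refine hBe _ _ ?_
    have hall : ∀ᶠ i in (atTop : Filter ι), ∀ k, (a k : F) ∈ E i ∧ (b k : F) ∈ E i :=
      eventually_all.2 fun k => (hev (a k)).and (hev (b k))
    filter_upwards [hall] with i hi
    have h4 := hχ i hi
    rw [map_sum] at h4
    rw [Finset.sum_apply]
    exact h4
  rw [h3, ← map_zero (Germ.coeAddHom (M := ZMod 2) (atTop : Filter ι))] at h1
  have h5 : ∀ᶠ i in (atTop : Filter ι), (fun _ : ι => (1 : ZMod 2)) i = (0 : ι → ZMod 2) i :=
    Germ.coe_eq.1 h1
  obtain ⟨i, hi⟩ := h5.exists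
  exact one_ne_zero hi

end Pool.Agent.J6H81.WE
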