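import Pool.Agent.J6H81.WE.Stm

/-! # WE-VAL: reduction modulo the maximal ideal of a valuation ring (helper85 for helper81) -/

set_option autoImplicit false

universe u

namespace Pool.Agent.J6H81.WE

open Pool.Agent.TH188.ET

namespace Val

/-- factorization of linear maps (copy of `Pool.Agent.TH188.ET.exists_lin`) -/
theorem exists_lin {K X Y Z : Type*} [Field K] [AddCommGroup X] [AddCommGroup Y] [AddCommGroup Z]
    [Module K X] [Module K Y] [Module K Z] (T : X →ₗ[K] Y) (f : X →ₗ[K] Z)
    (h : ∀ x, T x = 0 → f x = 0) : ∃ L : Y →ₗ[K] Z, ∀ x, L (T x) = f x := by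
  have hk : LinearMap.ker T ≤ LinearMap.ker f := by
    intro x hx
    exact h x hx
  let g : LinearMap.range T →ₗ[K] Z :=
    ((LinearMap.ker T).liftQ f hk).comp T.quotKerEquivRange.symm.toLinearMap
  obtain ⟨L, hL⟩ := LinearMap.exists_extend g
  refine ⟨L, fun x => ?_⟩
  have h1 : L (T x) = (L.comp (LinearMap.range T).subtype) ⟨T x, x, rfl⟩ := rfl
  rw [h1, hL]
  have h2 : T.quotKerEquivRange.symm ⟨T x, x, rfl⟩ = (LinearMap.ker T).mkQ x := by
    rw [LinearEquiv.symm_apply_eq]
    rfl
  show ((LinearMap.ker T).liftQ f hk) (T.quotKerEquivRange.symm ⟨T x, x, rfl⟩) = f x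
  rw [h2, Submodule.mkQ_apply, Submodule.liftQ_apply]

/-- the group modulo the squares -/
abbrev Q (G : Type u) [CommGroup G] : Type u := G ⧸ (powMonoidHom 2 : G →* G).range

lemma Q_sq {G : Type u} [CommGroup G] (x : Q G) : x ^ 2 = 1 := by
  obtain ⟨g, rfl⟩ := QuotientGroup.mk_surjective x
  rw [← QuotientGroup.mk_pow, QuotientGroup.eq_one_iff]
  exact ⟨g, rfl⟩

lemma Q_two {G : Type u} [CommGroup G] (x : Additive (Q G)) : 2 • x = 0 := by
  have h := Q_sq (Additive.toMul x)
  have : Additive.ofMul ((Additive.toMul x) ^ 2) = Additive.ofMul (1 : Q G) := by rw [h]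
  exact this

lemma mk_eq {G : Type u} [CommGroup G] {x y : G}
    (h : (QuotientGroup.mk x : Q G) = QuotientGroup.mk y) : ∃ t : G, x = t ^ 2 * y := by
  rw [eq_comm, QuotientGroup.eq] at h
  obtain ⟨t, ht⟩ := h
  refine ⟨t, ?_⟩
  have h1 : t ^ 2 = y⁻¹ * x := ht
  rw [h1, mul_comm y⁻¹ x, mul_assoc, inv_mul_cancel, mul_one]

/-- extension of homomorphisms modulo squares -/
theorem ext_hom {A B C : Type u} [CommGroup A] [CommGroup B] [CommGroup C] (i : A →* B) (r : A →* C)
    (h : ∀ a s, i a = s ^ 2 → ∃ t, r a = t ^ 2) :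
    ∃ l : B →* Q C, ∀ a, l (i a) = QuotientGroup.mk (r a) := by
  let T0 : Q A →* Q B := QuotientGroup.map _ _ i (by
    rintro _ ⟨x, rfl⟩
    exact ⟨i x, (map_pow i x 2).symm⟩)
  let f0 : Q A →* Q C := QuotientGroup.map _ _ r (by
    rintro _ ⟨x, rfl⟩
    exact ⟨r x, (map_pow r x 2).symm⟩)
  let mA : Module (ZMod 2) (Additive (Q A)) := AddCommGroup.zmodModule Q_two
  let mB : Module (ZMod 2) (Additive (Q B)) := AddCommGroup.zmodModule Q_two
  let mC : Module (ZMod 2) (Additive (Q C)) := AddCommGroup.zmodModule Q_two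
  have : Fact (Nat.Prime 2) := ⟨Nat.prime_two⟩
  obtain ⟨L, hL⟩ := exists_lin (AddMonoidHom.toZModLinearMap 2 (MonoidHom.toAdditive T0))
    (AddMonoidHom.toZModLinearMap 2 (MonoidHom.toAdditive f0)) (by
      intro x hx
      obtain ⟨a, ha⟩ := QuotientGroup.mk_surjective (Additive.toMul x)
      have h1 : T0 (QuotientGroup.mk a) = 1 := by
        rw [ha]
        exact hx
      have h2 : (QuotientGroup.mk (i a) : Q B) = 1 := h1
      rw [QuotientGroup.eq_one_iff] at h2
      obtain ⟨s, hs⟩ := h2
      obtain ⟨t, ht⟩ := h a s hs.symm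
      have h3 : f0 (QuotientGroup.mk a) = 1 := by
        show (QuotientGroup.mk (r a) : Q C) = 1
        rw [QuotientGroup.eq_one_iff]
        exact ⟨t, ht.symm⟩
      rw [ha] at h3
      exact h3)
  refine ⟨{ toFun := fun x => Additive.toMul (L (Additive.ofMul (QuotientGroup.mk x)))
            map_one' := ?_
            map_mul' := ?_ }, ?_⟩
  · show Additive.toMul (L (Additive.ofMul (QuotientGroup.mk (1 : B)))) = 1
    rw [QuotientGroup.mk_one, ofMul_one, map_zero, toMul_zero]
  · intro x y
    show Additive.toMul (L (Additive.ofMul (QuotientGroup.mk (x * y)))) = _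
    rw [QuotientGroup.mk_mul, ofMul_mul, map_add, toMul_add]
  · intro a
    have h1 := hL (Additive.ofMul (QuotientGroup.mk a))
    exact congrArg Additive.toMul h1

end Val

open Val in
theorem s_val : S_VAL.{u} := by
  classical
  intro K _ O h2 n a b hab
  obtain ⟨c, hc, hb⟩ := hab
  obtain ⟨l, hl⟩ := ext_hom (Units.map (O.subtype : O →* K))
    (Units.map (IsLocalRing.residue O : O →* IsLocalRing.ResidueField O)) (by
      intro u s hs
      have h1 : ((u : O) : K) = (s : K) ^ 2 := by
        have := congrArg Units.val hs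
        simpa using this
      have hu : (((u⁻¹ : Oˣ) : O) : K) * ((u : O) : K) = 1 := by
        have h3 : ((u⁻¹ : Oˣ) : O) * (u : O) = 1 := Units.inv_mul u
        exact_mod_cast congrArg (fun x : O => (x : K)) h3
      have hs0 : (s : K) ≠ 0 := s.ne_zero
      have hsO : (s : K) ∈ O := by
        rcases O.mem_or_inv_mem (s : K) with h3 | h3
        · exact h3
        · have : (s : K) = ((u : O) : K) * (s : K)⁻¹ := by
            rw [h1]
            field_simp
          rw [this]
          exact O.mul_mem _ _ (u : O).2 h3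
      have hsi : (s : K)⁻¹ ∈ O := by
        have : (s : K)⁻¹ = (s : K) * (((u⁻¹ : Oˣ) : O) : K) := by
          have h4 : (((u⁻¹ : Oˣ) : O) : K) * (s : K) ^ 2 = 1 := by rw [← h1]; exact hu
          have h5 : (s : K) * (((u⁻¹ : Oˣ) : O) : K) * (s : K) = 1 := by linear_combination h4
          exact (eq_inv_of_mul_eq_one_left h5).symm
        rw [this]
        exact O.mul_mem _ _ hsO ((u⁻¹ : Oˣ) : O).2
      let v : Oˣ := ⟨⟨s, hsO⟩, ⟨(s : K)⁻¹, hsi⟩, by
        apply Subtype.ext
        show (s : K) * (s : K)⁻¹ = 1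
        exact mul_inv_cancel₀ hs0, by
        apply Subtype.ext
        show (s : K)⁻¹ * (s : K) = 1
        exact inv_mul_cancel₀ hs0⟩
      refine ⟨Units.map (IsLocalRing.residue O : O →* IsLocalRing.ResidueField O) v, ?_⟩
      have h6 : u = v ^ 2 := by
        apply Units.ext
        apply Subtype.ext
        show ((u : O) : K) = (s : K) ^ 2
        exact h1
      rw [h6, map_pow])
  have hc' : ∀ I, ∃ e : (IsLocalRing.ResidueField O)ˣ, (QuotientGroup.mk e : Q _) = l (c I) :=
    fun I => QuotientGroup.mk_surjective _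
  choose c' hc'' using hc'
  refine ⟨c', ?_, ?_⟩
  · intro I
    obtain ⟨A, hA⟩ : ∃ A : Oˣ, A = ∏ i ∈ I, a i := ⟨_, rfl⟩
    have hA1 : ∏ i ∈ I, (Units.map (IsLocalRing.residue O : O →* IsLocalRing.ResidueField O)) (a i) =
        Units.map (IsLocalRing.residue O : O →* IsLocalRing.ResidueField O) A := by
      rw [hA, map_prod]
    have hA2 : ∏ i ∈ I, (Units.map (O.subtype : O →* K)) (a i) = Units.map (O.subtype : O →* K) A := by
      rw [hA, map_prod]
    show NormFrom (∏ i ∈ I, (Units.map (IsLocalRing.residue O : O →* IsLocalRing.ResidueField O)) (a i)) (c' I)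
    rw [hA1]
    have hcI := hc I
    rw [show (∏ i ∈ I, (fun k => (Units.map (O.subtype : O →* K)) (a k)) i) =
      Units.map (O.subtype : O →* K) A from hA2] at hcI
    obtain ⟨x, y, hxy⟩ := hcI
    have hxy' : (c I : K) = x ^ 2 - ((A : O) : K) * y ^ 2 := hxy
    obtain ⟨r, hr⟩ : ∃ r : IsLocalRing.ResidueField O, r = IsLocalRing.residue O (A : O) := ⟨_, rfl⟩
    have hr0 : r ≠ 0 := by
      rw [hr]
      exact (IsLocalRing.residue_ne_zero_iff_isUnit _).2 A.isUnit
    have hgoal : ∀ p q : IsLocalRing.ResidueField O, ((c' I : (IsLocalRing.ResidueField O)ˣ) :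
        IsLocalRing.ResidueField O) = p ^ 2 - r * q ^ 2 →
        NormFrom (Units.map (IsLocalRing.residue O : O →* IsLocalRing.ResidueField O) A) (c' I) := by
      intro p q h
      refine ⟨p, q, ?_⟩
      rw [h, hr]
      rfl
    -- a unit with the class of `c I`
    have key : ∀ (t : Kˣ) (w : O) (hw : IsLocalRing.residue O w ≠ 0), (c I : K) = (t : K) ^ 2 * (w : K) →
        ∃ m : IsLocalRing.ResidueField O, ((c' I : (IsLocalRing.ResidueField O)ˣ) :
        IsLocalRing.ResidueField O) = m ^ 2 * IsLocalRing.residue O w := by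
      intro t w hw h
      obtain ⟨w', hw'⟩ := (IsLocalRing.residue_ne_zero_iff_isUnit w).1 hw
      have h3 : c I = t ^ 2 * Units.map (O.subtype : O →* K) w' := by
        apply Units.ext
        rw [h, ← hw']
        rfl
      have h4 : l (c I) = QuotientGroup.mk
          (Units.map (IsLocalRing.residue O : O →* IsLocalRing.ResidueField O) w') := by
        rw [h3, map_mul, map_pow, Q_sq, one_mul, hl]
      obtain ⟨m, hm⟩ := mk_eq ((hc'' I).trans h4)
      refine ⟨(m : IsLocalRing.ResidueField O), ?_⟩
      rw [hm, ← hw']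
      rfl
    by_cases hsq : ∃ t, r = t ^ 2
    · obtain ⟨t, ht⟩ := hsq
      have ht0 : t ≠ 0 := by
        rintro rfl
        exact hr0 (by rw [ht]; ring)
      obtain ⟨e, he⟩ : ∃ e : IsLocalRing.ResidueField O, e = (c' I : (IsLocalRing.ResidueField O)ˣ) := ⟨_, rfl⟩
      refine hgoal ((e + 1) / 2) ((e - 1) / (2 * t)) ?_
      rw [ht, ← he]
      field_simp
      ring
    · have hcase : (x ≠ 0 ∧ y / x ∈ O) ∨ (y ≠ 0 ∧ x / y ∈ O) := by
        by_cases hx : x = 0
        · right
          refine ⟨?_, ?_⟩
          · rintro rfl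
            apply (c I).ne_zero
            rw [hxy', hx]
            ring
          · rw [hx, zero_div]
            exact O.zero_mem
        · rcases O.mem_or_inv_mem (y / x) with h3 | h3
          · exact Or.inl ⟨hx, h3⟩
          · by_cases hy : y = 0
            · left
              refine ⟨hx, ?_⟩
              rw [hy, zero_div]
              exact O.zero_mem
            · right
              refine ⟨hy, ?_⟩
              rwa [inv_div] at h3
      rcases hcase with ⟨hx, hz⟩ | ⟨hy, hz⟩
      · obtain ⟨z, hzz⟩ : ∃ z : O, (z : K) = y / x := ⟨⟨y / x, hz⟩, rfl⟩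
        have hw : IsLocalRing.residue O (1 - (A : O) * z ^ 2) ≠ 0 := by
          rw [map_sub, map_one, map_mul, map_pow, ← hr]
          intro h0
          have hz0 : IsLocalRing.residue O z ≠ 0 := by
            intro h5
            rw [h5] at h0
            simp at h0
          apply hsq
          refine ⟨(IsLocalRing.residue O z)⁻¹, ?_⟩
          field_simp
          linear_combination -h0
        obtain ⟨m, hm⟩ := key (Units.mk0 x hx) _ hw (by
          push_cast
          rw [hxy', Units.val_mk0, hzz]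
          field_simp)
        refine hgoal m (m * IsLocalRing.residue O z) ?_
        rw [hm, map_sub, map_one, map_mul, map_pow, ← hr]
        ring
      · obtain ⟨z, hzz⟩ : ∃ z : O, (z : K) = x / y := ⟨⟨x / y, hz⟩, rfl⟩
        have hw : IsLocalRing.residue O (z ^ 2 - (A : O)) ≠ 0 := by
          rw [map_sub, map_pow, ← hr]
          intro h0
          apply hsq
          exact ⟨IsLocalRing.residue O z, by linear_combination -h0⟩
        obtain ⟨m, hm⟩ := key (Units.mk0 y hy) _ hw (by
          push_cast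
          rw [hxy', Units.val_mk0, hzz]
          field_simp)
        refine hgoal (m * IsLocalRing.residue O z) m ?_
        rw [hm, map_sub, map_pow, ← hr]
        ring
  · intro i
    obtain ⟨s, hs⟩ := hb i
    have h1 := congrArg l hs
    rw [map_mul, map_pow, Q_sq, one_mul, map_prod] at h1
    have h2' : (QuotientGroup.mk (Units.map (IsLocalRing.residue O : O →* IsLocalRing.ResidueField O) (b i)) :
        Q _) = QuotientGroup.mk (∏ I with i ∈ I, c' I) := by
      rw [← hl, QuotientGroup.mk_prod]
      refine h1.trans ?_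
      exact Finset.prod_congr rfl fun I _ => (hc'' I).symm
    exact mk_eq h2'

end Pool.Agent.J6H81.WE
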